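import Mathlib
import Pool.Agent.L0h82.GT.All

/-!
# Generously transitive groups on 3-subsets (MP_155633_al, t = 3)

Let `X` be a set with at least seven elements, finite or infinite, and let `G` be a group of
permutations of `X` which is generously transitive on the `3`-subsets of `X`. Then for every
`5`-subset `Y` of `X` the setwise stabilizer of `Y` in `G` induces on `Y` the alternating or the full
symmetric group.

The problem file lists this (with `2t-1` in place of `5`) as known for `t` different from `3` and `5`.

Proof. By the swaps inside `Y` the group `H` induced on `Y` is transitive, and if it contains a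
`3`-cycle then it contains the alternating group. Suppose it contains none. Then for every `y` in
`Y` exactly one double transposition fixing `y` is induced, and the ten pairs in these five double
transpositions are the ten pairs in `Y`, each once (so `H` is the Frobenius group of order 20). This is so
for all `5`-subsets, because the elements of `G` preserving a `6`-subset are transitive on it. The
resulting structure on a `6`-subset, a choice of one of six totals on each of its six
`5`-subsets, must admit for every `3`-subset an automorphism which swaps it with its complement; only 66 of
the 46656 choices are so: six with automorphism group `PGL(2,5)`, and sixty which come from a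
circular order. On seven points only the 360 structures given by circular orders (up to reversal) have
all `6`-subsets of this kind. An element of `G` which induces a `4`-cycle on a `5`-subset
`Y` changes the cyclic order of `Y` given by a sixth point into the other one, which is not possible.
The finite checks are evaluated by the kernel.

Modules by helpers 2, 4, 28, 29, 36, 39, 41, 65, 68, 81, 82, 85 and 91.
-/

set_option autoImplicit false

universe u

namespace Pool.Agent.Results.MP_155633_al.AlternatingOnFive

/-- `G` is generously transitive on the `t`-subsets of `X`: any two of them are swapped by an element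
of `G`. -/
def GenerouslyTransitive {X : Type u} (G : Subgroup (Equiv.Perm X)) (t : ℕ) : Prop :=
  ∀ A B : Finset X, A.card = t → B.card = t →
    ∃ g ∈ G, A.map g.toEmbedding = B ∧ B.map g.toEmbedding = A

/-- **Theorem.** Let `G` be generously transitive on the `3`-subsets of `X`, where `X` is infinite or has
at least seven elements. Then every even permutation of a `5`-subset `Y` of `X` is induced by an
element of `G`. -/
theorem result {X : Type u} [DecidableEq X] (hX : Infinite X ∨ 7 ≤ Nat.card X)
    (G : Subgroup (Equiv.Perm X)) (hG : GenerouslyTransitive G 3)
    (Y : Finset X) (hY : Y.card = 5) (σ : Equiv.Perm Y) (hσ : σ ∈ alternatingGroup Y) :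
    ∃ g ∈ G, ∀ y : Y, g y = σ y := by
  have h7 : ∃ s : Finset X, s.card = 7 := by
    rcases hX with h | h
    · exact Infinite.exists_subset_card_eq X 7
    · have hfin : Finite X := Nat.finite_of_card_ne_zero (by omega)
      have : Fintype X := Fintype.ofFinite X
      rw [Nat.card_eq_fintype_card] at h
      obtain ⟨s, -, hs⟩ := Finset.exists_subset_card_eq (s := (Finset.univ : Finset X)) (n := 7)
        (by simpa using h)
      exact ⟨s, hs⟩
  refine Pool.Agent.L0h82.GT.top Pool.Agent.L0h82.GT.t_JOR Pool.Agent.L0h82.GT.t_FIN G ?_ h7 Y hY σ hσ
  intro A B hA hB
  obtain ⟨g, hg, h1, h2⟩ := hG A B hA hB
  refine ⟨g, hg, fun x hx => ?_, fun x hx => ?_⟩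
  · rw [← h1]
    exact Finset.mem_map.mpr ⟨x, hx, rfl⟩
  · rw [← h2]
    exact Finset.mem_map.mpr ⟨x, hx, rfl⟩

end Pool.Agent.Results.MP_155633_al.AlternatingOnFive
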